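import Pool.Agent.H460U.TR.Defs3
import Pool.Agent.H460U.TR.BH1

/-! Structure of the doubly invariant closed subspaces of `L² ⊕ L²` (support for BH3). -/

set_option autoImplicit false

open MeasureTheory Complex Filter
open scoped ComplexConjugate Matrix Topology InnerProductSpace

namespace Pool.Agent.H544TR

open Pool.Agent.H460U Pool.Agent.H460U.BH1

/-- the inner product of pairs -/
noncomputable def ip (p q : L22) : ℂ := ⟪p.1, q.1⟫_ℂ + ⟪p.2, q.2⟫_ℂ

theorem decomp (M : Submodule ℂ L22) (hM : IsClosed (M : Set L22)) (p : L22) :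
    ∃ m ∈ M, ∀ s ∈ M, ip s (p - m) = 0 := by
  let E : WithLp 2 (L2 × L2) ≃L[ℂ] L22 := WithLp.prodContinuousLinearEquiv 2 ℂ L2 L2
  let M' : Submodule ℂ (WithLp 2 (L2 × L2)) :=
    M.comap (E : WithLp 2 (L2 × L2) →ₗ[ℂ] L22)
  have hM' : IsClosed (M' : Set (WithLp 2 (L2 × L2))) := hM.preimage E.continuous
  have : CompleteSpace M' := hM'.completeSpace_coe
  refine ⟨E (M'.starProjection (E.symm p)), M'.starProjection_apply_mem _, fun s hs => ?_⟩
  have h := M'.sub_starProjection_mem_orthogonal (E.symm p)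
  have hs' : E.symm s ∈ M' := by
    show E (E.symm s) ∈ M
    rw [ContinuousLinearEquiv.apply_symm_apply]; exact hs
  have h2 := Submodule.inner_right_of_mem_orthogonal hs' h
  rw [WithLp.prod_inner_apply] at h2
  exact h2

theorem ip_self {p : L22} (h : ip p p = 0) : p = 0 := by
  unfold ip at h
  rw [inner_self_eq_norm_sq_to_K, inner_self_eq_norm_sq_to_K] at h
  have h1 : ‖p.1‖ ^ 2 + ‖p.2‖ ^ 2 = 0 := by
    have h0 : ((‖p.1‖ ^ 2 + ‖p.2‖ ^ 2 : ℝ) : ℂ) = 0 := by push_cast; exact h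
    exact Complex.ofReal_eq_zero.1 h0
  have h2 : ‖p.1‖ = 0 := by nlinarith [sq_nonneg ‖p.1‖, sq_nonneg ‖p.2‖]
  have h3 : ‖p.2‖ = 0 := by nlinarith [sq_nonneg ‖p.1‖, sq_nonneg ‖p.2‖]
  exact Prod.ext (norm_eq_zero.1 h2) (norm_eq_zero.1 h3)

theorem ip_conj (p q : L22) : conj (ip p q) = ip q p := by
  unfold ip
  rw [map_add, inner_conj_symm, inner_conj_symm]

theorem int_hp (f g : L2) : Integrable (fun x => conj (f x) * g x) mu := by
  have := L2.integrable_inner (𝕜 := ℂ) f g
  refine this.congr (ae_of_all _ fun x => ?_)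
  simp [RCLike.inner_apply, mul_comm]

theorem hp_vl (p q : L22) (x : X) :
    hp (vl p x) (vl q x) = conj (p.1 x) * q.1 x + conj (p.2 x) * q.2 x := by
  simp [hp, vl]

theorem hp_int (p q : L22) : Integrable (fun x => hp (vl p x) (vl q x)) mu := by
  simp only [hp_vl]
  exact (int_hp _ _).add (int_hp _ _)

theorem ip_eq (p q : L22) : ip p q = ∫ x, hp (vl p x) (vl q x) ∂mu := by
  simp only [hp_vl]
  rw [integral_add (int_hp _ _) (int_hp _ _)]
  unfold ip
  rw [L2.inner_def, L2.inner_def]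
  congr 1 <;>
  · apply integral_congr_ae
    exact ae_of_all _ fun x => by simp [RCLike.inner_apply, mul_comm]

/-- multiplication of a pair by `e n` -/
noncomputable def mulP (n : ℤ) (p : L22) : L22 := (mulE n p.1, mulE n p.2)

theorem vl_mulP (n : ℤ) (p : L22) : ∀ᵐ x ∂mu, vl (mulP n p) x = e n x • vl p x := by
  filter_upwards [coe_mulE n p.1, coe_mulE n p.2] with x h1 h2
  ext i
  fin_cases i
  · simp [vl, mulP, h1]
  · simp [vl, mulP, h2]

theorem hp_smul_left (c : ℂ) (u v : Fin 2 → ℂ) : hp (c • u) v = conj c * hp u v := by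
  simp [hp]; ring

theorem hp_smul_right (c : ℂ) (u v : Fin 2 → ℂ) : hp u (c • v) = c * hp u v := by
  simp [hp]; ring

theorem conj_e (n : ℤ) (x : X) : conj (e n x) = e (-n) x := by
  simp [e]

theorem ip_mulP (n : ℤ) (p q : L22) :
    ip (mulP n p) q = fourierCoeff (fun x => hp (vl p x) (vl q x)) n := by
  rw [ip_eq, fourierCoeff]
  apply integral_congr_ae
  filter_upwards [vl_mulP n p] with x h
  rw [h, hp_smul_left, conj_e]
  rfl

theorem orth_ae {p q : L22} (h : ∀ n : ℤ, ip (mulP n p) q = 0) :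
    ∀ᵐ x ∂mu, hp (vl p x) (vl q x) = 0 := by
  have := ae_zero_of_fourier (hp_int p q) (by
    intro n
    have h1 := h (-n)
    rw [ip_mulP, fourierCoeff] at h1
    rw [← h1]
    apply integral_congr_ae
    exact ae_of_all _ fun x => by simp)
  exact this

/-- invariance under multiplication by `e n` -/
def ZI (M : Submodule ℂ L22) (n : ℤ) : Prop :=
  ∀ p ∈ M, ∀ h : L22, (h.1 : X → ℂ) =ᵐ[mu] (fun x => e n x * p.1 x) →
    (h.2 : X → ℂ) =ᵐ[mu] (fun x => e n x * p.2 x) → h ∈ M

theorem mulE_zero (f : L2) : mulE 0 f = f := by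
  apply Lp.ext
  filter_upwards [coe_mulE 0 f] with x hx
  rw [hx]; simp [e]

theorem mulE_mulE (m n : ℤ) (f : L2) : mulE m (mulE n f) = mulE (m + n) f := by
  apply Lp.ext
  filter_upwards [coe_mulE m (mulE n f), coe_mulE n f, coe_mulE (m + n) f] with x h1 h2 h3
  rw [h1, h2, h3, e_add, mul_assoc]

theorem mulP_zero (p : L22) : mulP 0 p = p := by
  simp [mulP, mulE_zero]

theorem mulP_mulP (m n : ℤ) (p : L22) : mulP m (mulP n p) = mulP (m + n) p := by
  simp [mulP, mulE_mulE]

theorem ZI.mulP {M : Submodule ℂ L22} {n : ℤ} (h : ZI M n) {p : L22} (hp : p ∈ M) :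
    mulP n p ∈ M := h p hp _ (coe_mulE n p.1) (coe_mulE n p.2)

theorem mulP_mem {M : Submodule ℂ L22} (h1 : ZI M 1) (h2 : ZI M (-1)) {p : L22} (hp : p ∈ M)
    (n : ℤ) : mulP n p ∈ M := by
  induction n using Int.induction_on with
  | zero => rw [mulP_zero]; exact hp
  | succ k ih => rw [add_comm, ← mulP_mulP]; exact h1.mulP ih
  | pred k ih => rw [sub_eq_neg_add, ← mulP_mulP]; exact h2.mulP ih

theorem mulP_nat {M : Submodule ℂ L22} (h1 : ZI M 1) {p : L22} (hp : p ∈ M) (n : ℕ) :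
    mulP n p ∈ M := by
  induction n with
  | zero => rw [Nat.cast_zero, mulP_zero]; exact hp
  | succ k ih => rw [Nat.cast_succ, add_comm, ← mulP_mulP]; exact h1.mulP ih

noncomputable def oneL : L2 := (memLp_const (1 : ℂ)).toLp (fun _ : X => (1 : ℂ))

theorem oneL_coe : (oneL : X → ℂ) =ᵐ[mu] fun _ => 1 := MemLp.coeFn_toLp _

noncomputable def bas : Fin 2 → L22 := ![(oneL, 0), (0, oneL)]

theorem vl_bas (j : Fin 2) : ∀ᵐ x ∂mu, vl (bas j) x = Pi.single j 1 := by
  filter_upwards [oneL_coe, Lp.coeFn_zero ℂ 2 mu] with x h1 h2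
  ext i
  fin_cases j <;> fin_cases i <;> simp [vl, bas, h1]

theorem vl_sub (p q : L22) : ∀ᵐ x ∂mu, vl (p - q) x = vl p x - vl q x := by
  filter_upwards [Lp.coeFn_sub p.1 q.1, Lp.coeFn_sub p.2 q.2] with x h1 h2
  ext i
  fin_cases i
  · simp only [vl, Fin.zero_eta, Matrix.cons_val_zero, Pi.sub_apply]
    exact h1
  · simp only [vl, Fin.mk_one, Matrix.cons_val_one, Pi.sub_apply]
    exact h2

theorem hp_sub_left (u v w : Fin 2 → ℂ) : hp (u - v) w = hp u w - hp v w := by
  simp [hp]; ring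

theorem hp_sub_right (u v w : Fin 2 → ℂ) : hp u (v - w) = hp u v - hp u w := by
  simp [hp]; ring

theorem hp_single (i : Fin 2) (v : Fin 2 → ℂ) : hp (Pi.single i 1) v = v i := by
  fin_cases i <;> simp [hp]

theorem hp_mulVec (A : M2) (u v : Fin 2 → ℂ) : hp (Aᴴ.mulVec u) v = hp u (A.mulVec v) := by
  simp [hp, Matrix.mulVec, dotProduct, Matrix.conjTranspose_apply]
  ring

theorem bha (D : Submodule ℂ L22) (hD : IsClosed (D : Set L22)) (h1 : ZI D 1) (h2 : ZI D (-1)) :
    ∃ pr : X → M2, (∀ i j, AEStronglyMeasurable (fun x => pr x i j) mu) ∧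
      (∀ᵐ x ∂mu, (pr x)ᴴ = pr x ∧ pr x * pr x = pr x) ∧
      (∀ p : L22, p ∈ D ↔ ∀ᵐ x ∂mu, (pr x).mulVec (vl p x) = vl p x) ∧
      (∀ p : L22, (∀ s ∈ D, ip s p = 0) → ∀ᵐ x ∂mu, (pr x).mulVec (vl p x) = 0) := by
  choose q hqD hq using fun j => decomp D hD (bas j)
  have key : ∀ i, ∀ p ∈ D, ∀ᵐ x ∂mu, hp (vl (q i) x) (vl p x) = vl p x i := by
    intro i p hp'
    have := orth_ae (p := p) (q := bas i - q i) (fun n => by
      exact hq i _ (mulP_mem h1 h2 hp' n))
    filter_upwards [this, vl_sub (bas i) (q i), vl_bas i] with x h3 h4 h5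
    have h6 : hp (vl (bas i - q i) x) (vl p x) = 0 := by
      have : hp (vl (bas i - q i) x) (vl p x) = conj (hp (vl p x) (vl (bas i - q i) x)) := by
        simp [hp]; ring
      rw [this, h3, map_zero]
    rw [h4, hp_sub_left, h5, hp_single, sub_eq_zero] at h6
    exact h6.symm
  let pr : X → M2 := fun x => Matrix.of fun i j => vl (q j) x i
  have hpr : ∀ p ∈ D, ∀ᵐ x ∂mu, ((pr x)ᴴ).mulVec (vl p x) = vl p x := by
    intro p hp'
    filter_upwards [key 0 p hp', key 1 p hp'] with x h3 h4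
    ext i
    fin_cases i
    · simp only [Fin.zero_eta]
      rw [← h3]
      simp [hp, Matrix.mulVec, dotProduct, pr, Matrix.conjTranspose_apply]
    · simp only [Fin.mk_one]
      rw [← h4]
      simp [hp, Matrix.mulVec, dotProduct, pr, Matrix.conjTranspose_apply]
  have hpp : ∀ᵐ x ∂mu, (pr x)ᴴ * pr x = pr x := by
    filter_upwards [hpr (q 0) (hqD 0), hpr (q 1) (hqD 1)] with x h3 h4
    ext i j
    fin_cases j
    · have := congrFun h3 i
      simpa [Matrix.mul_apply, Matrix.mulVec, dotProduct, pr] using this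
    · have := congrFun h4 i
      simpa [Matrix.mul_apply, Matrix.mulVec, dotProduct, pr] using this
  have hself : ∀ᵐ x ∂mu, (pr x)ᴴ = pr x ∧ pr x * pr x = pr x := by
    filter_upwards [hpp] with x h3
    have h4 : (pr x)ᴴ = pr x := by
      have := congrArg Matrix.conjTranspose h3
      rw [Matrix.conjTranspose_mul, Matrix.conjTranspose_conjTranspose] at this
      rw [← this, h3]
    refine ⟨h4, ?_⟩
    rw [h4] at h3
    exact h3
  have horth : ∀ p : L22, (∀ s ∈ D, ip s p = 0) → ∀ᵐ x ∂mu, (pr x).mulVec (vl p x) = 0 := by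
    intro p hp'
    have h5 : ∀ j, ∀ᵐ x ∂mu, hp (vl (q j) x) (vl p x) = 0 := fun j =>
      orth_ae (fun n => hp' _ (mulP_mem h1 h2 (hqD j) n))
    filter_upwards [h5 0, h5 1, hself] with x h3 h4 h6
    rw [← h6.1]
    ext i
    fin_cases i
    · simp only [Fin.zero_eta, Pi.zero_apply]
      rw [← h3]
      simp [hp, Matrix.mulVec, dotProduct, pr, Matrix.conjTranspose_apply]
    · simp only [Fin.mk_one, Pi.zero_apply]
      rw [← h4]
      simp [hp, Matrix.mulVec, dotProduct, pr, Matrix.conjTranspose_apply]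
  refine ⟨pr, ?_, hself, fun p => ⟨fun hp' => ?_, fun hp' => ?_⟩, horth⟩
  · intro i j
    fin_cases i
    · exact Lp.aestronglyMeasurable (q j).1
    · exact Lp.aestronglyMeasurable (q j).2
  · filter_upwards [hpr p hp', hself] with x h3 h4
    rw [h4.1] at h3
    exact h3
  · obtain ⟨m, hm, hm'⟩ := decomp D hD p
    have h3 := horth _ hm'
    have h4 : ip (p - m) (p - m) = 0 := by
      have h5 : ip (p - m) p = 0 := by
        rw [ip_eq, ← integral_zero X ℂ (μ := mu)]
        apply integral_congr_ae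
        filter_upwards [h3, hp', hself] with x h6 h7 h8
        rw [← h7, ← hp_mulVec, h8.1, h6]
        simp [hp]
      have h6 : ip (p - m) m = 0 := by
        rw [← ip_conj, hm' m hm, map_zero]
      have h7 : ip (p - m) (p - m) = ip (p - m) p - ip (p - m) m := by
        simp only [ip, Prod.fst_sub, Prod.snd_sub, inner_sub_right]
        ring
      rw [h7, h5, h6, sub_zero]
    have h5 := ip_self h4
    rw [sub_eq_zero] at h5
    rw [h5]; exact hm

end Pool.Agent.H544TR
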